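import Pool.Agent.J4H64.GD.Box

/-!
# Project GD (helper1): several dilations (helper64)
-/

set_option autoImplicit false

namespace Pool.Agent.J4H64.GD

open Complex Filter Topology MeasureTheory Set
open scoped ENNReal
open Pool.Agent.N879.GD
open Pool.Agent.Y969.GP (ff)

attribute [local irreducible] Pool.Agent.Y969.GP.ff

/-- the statement of `P_DILK` for one `k` -/
def PK (δ : ℝ) (k : ℕ) : Prop := ∀ A : ℝ, 1 ≤ A → ∃ C T₀ : ℝ, 0 < C ∧ 1 ≤ T₀ ∧
  ∀ (T : ℝ) (F : ℝ → ℂ), T₀ ≤ T → Measurable F →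
  ∫⁻ l in Icc (fun _ : Fin k => A⁻¹) (fun _ => A),
      ‖∫ t in Icc T (2 * T), F t * ((dif l t : ℝ) : ℂ)‖ₑ ^ 2 ≤
    ENNReal.ofReal (C * T ^ (1 - 2 * δ)) * ∫⁻ t in Icc T (2 * T), ‖F t‖ₑ ^ 2

theorem dif_cons {k : ℕ} (x : ℝ) (l : Fin k → ℝ) (t : ℝ) :
    dif (Fin.cons x l : Fin (k + 1) → ℝ) t =
      (ff (x * t) - D0 (x * t)) * ∏ j, ff (l j * t) + D0 (x * t) * dif l t := by
  unfold dif
  simp only [Fin.prod_univ_succ, Fin.cons_zero, Fin.cons_succ]
  ring

/-- joint measurability of a product -/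
theorem meas_prod {X : Type*} [MeasurableSpace X] {k : ℕ} {g : ℝ → ℝ} (hg : Measurable g)
    {u : X → Fin k → ℝ} {v : X → ℝ} (hu : Measurable u) (hv : Measurable v) :
    Measurable fun x : X => ∏ j, g (u x j * v x) :=
  Finset.measurable_fun_prod _ fun j _ => hg.comp ((measurable_pi_iff.1 hu j).mul hv)

theorem meas_dif {k : ℕ} (hff : Measurable ff) :
    Measurable fun q : (Fin k → ℝ) × ℝ => dif q.1 q.2 :=
  (meas_prod hff measurable_fst measurable_snd).sub
    (meas_prod D0_meas measurable_fst measurable_snd)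

/-- measurability of the square of the integral in the parameters -/
theorem meas_int {X : Type*} [MeasurableSpace X] {a b : ℝ} {G : X × ℝ → ℂ} (hG : Measurable G) :
    Measurable fun x : X => ‖∫ t in Icc a b, G (x, t)‖ₑ ^ 2 := by
  have h : StronglyMeasurable fun x : X => ∫ t in Icc a b, G (x, t) :=
    hG.stronglyMeasurable.integral_prod_right'
  exact h.enorm.pow_const 2

theorem t_step (hM : S_M4) (hff : Continuous ff) (δ δ' : ℝ) (_ : 0 < δ') (hlt : δ' < δ)
    (hD : P_DIL1 δ) (k : ℕ) (ih : PK ((δ + δ') / 2) k) : PK δ' (k + 1) := by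
  intro A hA
  obtain ⟨C1, T1, hC1, hT1, h1⟩ := hD A hA
  obtain ⟨C2, hC2, h2⟩ := ff_mom hM hff A ((δ - δ') / (k + 1)) hA (by
    have : 0 < δ - δ' := by linarith
    positivity)
  obtain ⟨C3, T3, hC3, hT3, h3⟩ := ih A hA
  obtain ⟨C4, hC4, h4⟩ := D0_bound A ((δ - δ') / 2) hA (by linarith)
  have hA0 : 0 < A := by linarith
  have hpi := Real.pi_gt_three
  refine ⟨2 * (C1 * C2 ^ k) + 2 * (A * (C3 * C4 ^ 2)), max T1 (max T3 (2 * Real.pi * A)),
    by positivity, hT1.trans (le_max_left _ _), fun T F hT hF => ?_⟩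
  have hTT1 : T1 ≤ T := (le_max_left _ _).trans hT
  have hTT3 : T3 ≤ T := (le_max_left _ _).trans ((le_max_right _ _).trans hT)
  have hTA : 2 * Real.pi * A ≤ T := (le_max_right _ _).trans ((le_max_right _ _).trans hT)
  have hT1' : 1 ≤ T := hT1.trans hTT1
  have hT0 : 0 < T := by linarith
  by_cases hF2 : ∫⁻ t in Icc T (2 * T), ‖F t‖ₑ ^ 2 = ⊤
  · rw [hF2, ENNReal.mul_top]
    · exact le_top
    · rw [Ne, ENNReal.ofReal_eq_zero, not_le]; positivity
  set I : ℝ≥0∞ := ∫⁻ t in Icc T (2 * T), ‖F t‖ₑ ^ 2 with hI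
  set S : Set ℝ := Icc A⁻¹ A with hS
  set B : Set (Fin k → ℝ) := Icc (fun _ => A⁻¹) (fun _ => A) with hB
  -- the two parts
  let P1 : ℝ → (Fin k → ℝ) → ℝ≥0∞ := fun x l =>
    ‖∫ t in Icc T (2 * T), (F t * ((∏ j, ff (l j * t) : ℝ) : ℂ)) *
      ((ff (x * t) - D0 (x * t) : ℝ) : ℂ)‖ₑ ^ 2
  let P2 : ℝ → (Fin k → ℝ) → ℝ≥0∞ := fun x l =>
    ‖∫ t in Icc T (2 * T), (F t * ((D0 (x * t) : ℝ) : ℂ)) * ((dif l t : ℝ) : ℂ)‖ₑ ^ 2
  have hffm : Measurable ff := hff.measurable
  -- measurability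
  have m1 : Measurable fun q : (ℝ × (Fin k → ℝ)) => P1 q.1 q.2 := by
    have hG : Measurable fun w : (ℝ × (Fin k → ℝ)) × ℝ =>
        (F w.2 * ((∏ j, ff (w.1.2 j * w.2) : ℝ) : ℂ)) *
          ((ff (w.1.1 * w.2) - D0 (w.1.1 * w.2) : ℝ) : ℂ) := by
      have a1 : Measurable fun w : (ℝ × (Fin k → ℝ)) × ℝ => ∏ j, ff (w.1.2 j * w.2) :=
        meas_prod hffm (measurable_snd.comp measurable_fst) measurable_snd
      have a2 : Measurable fun w : (ℝ × (Fin k → ℝ)) × ℝ => w.1.1 * w.2 := by fun_prop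
      have a3 : Measurable fun w : (ℝ × (Fin k → ℝ)) × ℝ => ff (w.1.1 * w.2) - D0 (w.1.1 * w.2) :=
        (hffm.comp a2).sub (D0_meas.comp a2)
      exact ((hF.comp measurable_snd).mul (measurable_ofReal.comp a1)).mul
        (measurable_ofReal.comp a3)
    exact meas_int hG
  have m0 : Measurable fun l : Fin (k + 1) → ℝ =>
      ‖∫ t in Icc T (2 * T), F t * ((dif l t : ℝ) : ℂ)‖ₑ ^ 2 := by
    have hG : Measurable fun w : (Fin (k + 1) → ℝ) × ℝ => F w.2 * ((dif w.1 w.2 : ℝ) : ℂ) :=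
      (hF.comp measurable_snd).mul (measurable_ofReal.comp (meas_dif hffm))
    exact meas_int hG
  -- splitting
  have hsplit : ∀ x ∈ S, ∀ l ∈ B,
      ‖∫ t in Icc T (2 * T), F t * ((dif (Fin.cons x l : Fin (k + 1) → ℝ) t : ℝ) : ℂ)‖ₑ ^ 2 ≤
        2 * P1 x l + 2 * P2 x l := by
    intro x hx l hl
    have hx0 : 0 < x := (inv_pos.2 hA0).trans_le hx.1
    have hl0 : ∀ j, 0 < l j := fun j => (inv_pos.2 hA0).trans_le (hl.1 j)
    have c1 : ContinuousOn (fun t : ℝ => (ff (x * t) - D0 (x * t)) * ∏ j, ff (l j * t))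
        (Icc T (2 * T)) := by
      refine ContinuousOn.mul (ContinuousOn.sub (by fun_prop) (D0_cont hx0 hT0)) ?_
      exact (continuous_finsetProd _ fun j _ => by fun_prop).continuousOn
    have c2 : ContinuousOn (fun t : ℝ => D0 (x * t) * dif l t) (Icc T (2 * T)) := by
      refine (D0_cont hx0 hT0).mul ?_
      unfold dif
      refine ContinuousOn.sub (continuous_finsetProd _ fun j _ => by fun_prop).continuousOn ?_
      exact continuousOn_finsetProd _ fun j _ => D0_cont (hl0 j) hT0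
    have e1 : ∫ t in Icc T (2 * T), F t * ((dif (Fin.cons x l : Fin (k + 1) → ℝ) t : ℝ) : ℂ) =
        (∫ t in Icc T (2 * T), (F t * ((∏ j, ff (l j * t) : ℝ) : ℂ)) *
          ((ff (x * t) - D0 (x * t) : ℝ) : ℂ)) +
        ∫ t in Icc T (2 * T), (F t * ((D0 (x * t) : ℝ) : ℂ)) * ((dif l t : ℝ) : ℂ) := by
      have i1 := intg hF hF2 c1
      have i2 := intg hF hF2 c2
      rw [← integral_add]
      · refine setIntegral_congr_fun measurableSet_Icc fun t _ => ?_
        simp only [dif_cons]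
        push_cast
        ring
      · refine i1.congr_fun (fun t _ => ?_) measurableSet_Icc
        push_cast
        ring
      · refine i2.congr_fun (fun t _ => ?_) measurableSet_Icc
        push_cast
        ring
    rw [e1]
    exact enorm_add_sq _ _
  -- first part
  have hp1 : ∫⁻ x in S, ∫⁻ l in B, P1 x l ≤
      ENNReal.ofReal (C1 * T ^ (1 - 2 * δ)) *
        (ENNReal.ofReal (C2 * T ^ ((δ - δ') / (k + 1))) ^ k * I) := by
    rw [lintegral_lintegral_swap m1.aemeasurable]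
    have hF1 : ∀ l : Fin k → ℝ, Measurable fun t : ℝ => F t * ((∏ j, ff (l j * t) : ℝ) : ℂ) := by
      intro l
      refine hF.mul (measurable_ofReal.comp ?_)
      exact Finset.measurable_fun_prod _ fun j _ => hffm.comp (measurable_id.const_mul _)
    have e1 : ∀ l ∈ B, ∫⁻ x in S, P1 x l ≤ ENNReal.ofReal (C1 * T ^ (1 - 2 * δ)) *
        ∫⁻ t in Icc T (2 * T), ‖F t‖ₑ ^ 2 * ∏ j, ‖ff (l j * t)‖ₑ ^ 2 := by
      intro l _
      refine (h1 T _ hTT1 (hF1 l)).trans ?_
      refine mul_le_mul_right ?_ _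
      refine lintegral_mono fun t => ?_
      rw [enorm_mul, mul_pow]
      refine mul_le_mul_right (le_of_eq ?_) _
      have z1 : ∀ y : ℝ, ‖(y : ℂ)‖ₑ = ‖y‖ₑ := fun y => by
        rw [← ofReal_norm, norm_real, ofReal_norm]
      rw [z1, ← ofReal_norm, norm_prod, ENNReal.ofReal_prod_of_nonneg fun j _ => norm_nonneg _,
        ← Finset.prod_pow]
      exact Finset.prod_congr rfl fun j _ => by rw [ofReal_norm]
    refine (setLIntegral_mono' measurableSet_Icc e1).trans ?_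
    have mm : Measurable fun q : (Fin k → ℝ) × ℝ => ‖F q.2‖ₑ ^ 2 * ∏ j, ‖ff (q.1 j * q.2)‖ₑ ^ 2 := by
      refine ((hF.comp measurable_snd).enorm.pow_const 2).mul ?_
      exact Finset.measurable_fun_prod _ fun j _ =>
        ((hffm.comp (((measurable_pi_apply j).comp measurable_fst).mul
          measurable_snd)).enorm.pow_const 2)
    rw [lintegral_const_mul _ (Measurable.lintegral_prod_right' mm)]
    refine mul_le_mul_right ?_ _
    rw [lintegral_lintegral_swap mm.aemeasurable]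
    have e2 : ∀ t ∈ Icc T (2 * T), ∫⁻ l in B, ‖F t‖ₑ ^ 2 * ∏ j, ‖ff (l j * t)‖ₑ ^ 2 ≤
        ENNReal.ofReal (C2 * T ^ ((δ - δ') / (k + 1))) ^ k * ‖F t‖ₑ ^ 2 := by
      intro t ht
      have mg : Measurable fun x : ℝ => ‖ff (x * t)‖ₑ ^ 2 :=
        (hffm.comp (measurable_id.mul_const _)).enorm.pow_const 2
      have e3 := box_prod A⁻¹ A (fun x : ℝ => ‖ff (x * t)‖ₑ ^ 2) mg k
      have mg' : Measurable fun l : Fin k → ℝ => ∏ j, ‖ff (l j * t)‖ₑ ^ 2 :=
        Finset.measurable_fun_prod _ fun j _ => mg.comp (measurable_pi_apply j)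
      rw [lintegral_const_mul _ mg', e3, mul_comm]
      have e4 := h2 T hT1' t ht
      gcongr
    refine (setLIntegral_mono' measurableSet_Icc e2).trans ?_
    rw [lintegral_const_mul _ (hF.enorm.pow_const 2)]
  -- second part
  have hp2 : ∫⁻ x in S, ∫⁻ l in B, P2 x l ≤
      ENNReal.ofReal (C3 * T ^ (1 - 2 * ((δ + δ') / 2))) *
        (ENNReal.ofReal ((C4 * T ^ ((δ - δ') / 2)) ^ 2) * I) * ENNReal.ofReal A := by
    have e1 : ∀ x ∈ S, ∫⁻ l in B, P2 x l ≤ ENNReal.ofReal (C3 * T ^ (1 - 2 * ((δ + δ') / 2))) *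
        (ENNReal.ofReal ((C4 * T ^ ((δ - δ') / 2)) ^ 2) * I) := by
      intro x hx
      have hF1 : Measurable fun t : ℝ => F t * ((D0 (x * t) : ℝ) : ℂ) :=
        hF.mul (measurable_ofReal.comp (D0_meas.comp (measurable_id.const_mul _)))
      refine (h3 T _ hTT3 hF1).trans ?_
      refine mul_le_mul_right ?_ _
      rw [hI, ← lintegral_const_mul _ (hF.enorm.pow_const 2)]
      refine setLIntegral_mono' measurableSet_Icc fun t ht => ?_
      rw [enorm_mul, mul_pow, mul_comm]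
      refine mul_le_mul_left ?_ _
      have e2 := h4 T hTA t ht x hx
      rw [← ofReal_norm, norm_real, Real.norm_eq_abs, ← ENNReal.ofReal_pow (abs_nonneg _)]
      refine ENNReal.ofReal_le_ofReal ?_
      gcongr
    refine (setLIntegral_mono' measurableSet_Icc e1).trans ?_
    rw [setLIntegral_const]
    refine mul_le_mul_right ?_ _
    rw [Real.volume_Icc]
    refine ENNReal.ofReal_le_ofReal ?_
    have := inv_pos.2 hA0
    linarith
  -- together
  rw [box_split _ _ _ m0]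
  have hle : ∫⁻ x in S, ∫⁻ l in B,
      ‖∫ t in Icc T (2 * T), F t * ((dif (Fin.cons x l : Fin (k + 1) → ℝ) t : ℝ) : ℂ)‖ₑ ^ 2 ≤
      2 * (∫⁻ x in S, ∫⁻ l in B, P1 x l) + 2 * ∫⁻ x in S, ∫⁻ l in B, P2 x l := by
    have q1 : ∀ x ∈ S, ∫⁻ l in B,
        ‖∫ t in Icc T (2 * T), F t * ((dif (Fin.cons x l : Fin (k + 1) → ℝ) t : ℝ) : ℂ)‖ₑ ^ 2 ≤
        2 * (∫⁻ l in B, P1 x l) + 2 * ∫⁻ l in B, P2 x l := by
      intro x hx
      refine (setLIntegral_mono' measurableSet_Icc fun l hl => hsplit x hx l hl).trans ?_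
      have q2 : Measurable fun l => 2 * P1 x l :=
        (m1.comp (measurable_const.prodMk measurable_id)).const_mul 2
      rw [lintegral_add_left q2, lintegral_const_mul' _ _ (by norm_num),
        lintegral_const_mul' _ _ (by norm_num)]
    refine (setLIntegral_mono' measurableSet_Icc q1).trans ?_
    have q3 : Measurable fun x => 2 * ∫⁻ l in B, P1 x l :=
      (Measurable.lintegral_prod_right' m1).const_mul 2
    rw [lintegral_add_left q3, lintegral_const_mul' _ _ (by norm_num),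
      lintegral_const_mul' _ _ (by norm_num)]
  refine hle.trans ?_
  have hk0 : (0 : ℝ) < k + 1 := by positivity
  have hd : 0 < δ - δ' := by linarith
  have t1 : ENNReal.ofReal (C1 * T ^ (1 - 2 * δ)) *
        (ENNReal.ofReal (C2 * T ^ ((δ - δ') / (k + 1))) ^ k * I) ≤
      ENNReal.ofReal (C1 * C2 ^ k * T ^ (1 - 2 * δ')) * I := by
    rw [← mul_assoc, ← ENNReal.ofReal_pow (by positivity), ← ENNReal.ofReal_mul (by positivity)]
    refine mul_le_mul_left (ENNReal.ofReal_le_ofReal ?_) _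
    rw [mul_pow, ← Real.rpow_natCast (T ^ ((δ - δ') / (k + 1))) k, ← Real.rpow_mul hT0.le]
    have e5 : C1 * T ^ (1 - 2 * δ) * (C2 ^ k * T ^ ((δ - δ') / (↑k + 1) * ↑k)) =
        C1 * C2 ^ k * T ^ ((1 - 2 * δ) + (δ - δ') / (↑k + 1) * ↑k) := by
      rw [Real.rpow_add hT0]; ring
    rw [e5]
    have e6 : (δ - δ') / (↑k + 1) * ↑k ≤ δ - δ' := by
      rw [div_mul_eq_mul_div, div_le_iff₀ hk0]
      nlinarith
    have e7 : T ^ ((1 - 2 * δ) + (δ - δ') / (↑k + 1) * ↑k) ≤ T ^ (1 - 2 * δ') :=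
      Real.rpow_le_rpow_of_exponent_le hT1' (by linarith)
    gcongr
  have t2 : ENNReal.ofReal (C3 * T ^ (1 - 2 * ((δ + δ') / 2))) *
        (ENNReal.ofReal ((C4 * T ^ ((δ - δ') / 2)) ^ 2) * I) * ENNReal.ofReal A =
      ENNReal.ofReal (A * (C3 * C4 ^ 2) * T ^ (1 - 2 * δ')) * I := by
    rw [mul_comm (ENNReal.ofReal _ * _) (ENNReal.ofReal A), ← mul_assoc, ← mul_assoc,
      ← ENNReal.ofReal_mul (by positivity), ← ENNReal.ofReal_mul (by positivity)]
    congr 2
    rw [mul_pow, ← Real.rpow_natCast (T ^ ((δ - δ') / 2)) 2, ← Real.rpow_mul hT0.le]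
    have e5 : T ^ (1 - 2 * δ') =
        T ^ (1 - 2 * ((δ + δ') / 2)) * T ^ ((δ - δ') / 2 * ((2 : ℕ) : ℝ)) := by
      rw [← Real.rpow_add hT0]
      congr 1
      push_cast
      ring
    rw [e5]
    ring
  calc 2 * (∫⁻ x in S, ∫⁻ l in B, P1 x l) + 2 * ∫⁻ x in S, ∫⁻ l in B, P2 x l
      ≤ 2 * (ENNReal.ofReal (C1 * C2 ^ k * T ^ (1 - 2 * δ')) * I) +
        2 * (ENNReal.ofReal (A * (C3 * C4 ^ 2) * T ^ (1 - 2 * δ')) * I) := by
        gcongr
        · exact hp1.trans t1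
        · exact hp2.trans t2.le
    _ = ENNReal.ofReal ((2 * (C1 * C2 ^ k) + 2 * (A * (C3 * C4 ^ 2))) * T ^ (1 - 2 * δ')) * I := by
        have h2' : (2 : ℝ≥0∞) = ENNReal.ofReal 2 := by simp
        rw [h2', ← mul_assoc, ← mul_assoc, ← ENNReal.ofReal_mul (by norm_num),
          ← ENNReal.ofReal_mul (by norm_num), ← add_mul,
          ← ENNReal.ofReal_add (by positivity) (by positivity)]
        congr 2
        ring

theorem t_PK (hM : S_M4) (hff : Continuous ff) (δ : ℝ) (hD : P_DIL1 δ) (k : ℕ) :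
    ∀ δ' : ℝ, 0 < δ' → δ' < δ → PK δ' k := by
  induction k with
  | zero =>
      intro δ' _ _ A _
      refine ⟨1, 1, one_pos, le_rfl, fun T F _ _ => ?_⟩
      have h : ∀ l : Fin 0 → ℝ, ‖∫ t in Icc T (2 * T), F t * ((dif l t : ℝ) : ℂ)‖ₑ ^ 2 = 0 := by
        intro l
        have : ∀ t, dif l t = 0 := fun t => by simp [dif]
        simp [this]
      simp [h]
  | succ k ih =>
      intro δ' h0 h1
      exact t_step hM hff δ δ' h0 h1 hD k (ih _ (by linarith) (by linarith))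

/-- DILK -/
theorem t_DILK (hM : S_M4) (hC : S_CRU) : S_DILK := by
  intro δ δ' h0 h1 _ hD k A hA
  obtain ⟨_, _, _, hff, _⟩ := hC
  exact t_PK hM hff δ hD k δ' h0 h1 A hA

end Pool.Agent.J4H64.GD
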