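import Pool.Agent.J4H64.GD.Box

/-!
# Project GD (helper1): balls around bad points (helper64)
-/

set_option autoImplicit false

namespace Pool.Agent.J4H64.GD

open Complex Filter Topology MeasureTheory Set
open scoped ENNReal
open Pool.Agent.N879.GD
open Pool.Agent.Y969.GP (ff)

attribute [local irreducible] Pool.Agent.Y969.GP.ff

theorem prod_diff (k : ℕ) (M r : ℝ) (hM : 0 ≤ M) (hr : 0 ≤ r) (a b : Fin k → ℝ)
    (ha : ∀ j, |a j| ≤ M) (hb : ∀ j, |b j| ≤ M) (hab : ∀ j, |a j - b j| ≤ M * r) :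
    |∏ j, a j - ∏ j, b j| ≤ k * M ^ k * r := by
  induction k with
  | zero => simp
  | succ k ih =>
      rw [Fin.prod_univ_succ, Fin.prod_univ_succ]
      have h1 := ih (fun j => a j.succ) (fun j => b j.succ) (fun j => ha _) (fun j => hb _)
        (fun j => hab _)
      have h2 : |∏ j : Fin k, b j.succ| ≤ M ^ k := by
        rw [Finset.abs_prod]
        calc ∏ j : Fin k, |b j.succ| ≤ ∏ _j : Fin k, M :=
              Finset.prod_le_prod (fun j _ => abs_nonneg _) fun j _ => hb _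
          _ = M ^ k := by simp
      have e : a 0 * ∏ j : Fin k, a j.succ - b 0 * ∏ j : Fin k, b j.succ =
          a 0 * (∏ j : Fin k, a j.succ - ∏ j : Fin k, b j.succ) +
            (a 0 - b 0) * ∏ j : Fin k, b j.succ := by ring
      rw [e]
      calc |a 0 * (∏ j : Fin k, a j.succ - ∏ j : Fin k, b j.succ) +
            (a 0 - b 0) * ∏ j : Fin k, b j.succ|
          ≤ |a 0| * |∏ j : Fin k, a j.succ - ∏ j : Fin k, b j.succ| +
            |a 0 - b 0| * |∏ j : Fin k, b j.succ| := by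
            refine (abs_add_le _ _).trans ?_
            rw [abs_mul, abs_mul]
        _ ≤ M * (k * M ^ k * r) + (M * r) * M ^ k := by
            gcongr
            · exact ha 0
            · exact hab 0
        _ = ((k + 1 : ℕ) : ℝ) * M ^ (k + 1) * r := by push_cast; ring

theorem log_abs_le {y B : ℝ} (hy : 0 < y) (h1 : y ≤ B) (h2 : y⁻¹ ≤ B) : |Real.log y| ≤ B := by
  rw [abs_le]
  constructor
  · have := Real.log_le_sub_one_of_pos (inv_pos.2 hy)
    rw [Real.log_inv] at this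
    linarith
  · have := Real.log_le_sub_one_of_pos hy
    linarith

theorem log_diff_le {x y m : ℝ} (hm : 0 < m) (hx : m ≤ x) (hy : m ≤ y) :
    |Real.log x - Real.log y| ≤ |x - y| / m := by
  wlog h : y ≤ x with H
  · rw [abs_sub_comm, abs_sub_comm x]
    exact H hm hy hx (by linarith)
  have hx0 : 0 < x := hm.trans_le hx
  have hy0 : 0 < y := hm.trans_le hy
  rw [abs_of_nonneg (by linarith [Real.log_le_log hy0 h]), abs_of_nonneg (by linarith),
    ← Real.log_div hx0.ne' hy0.ne']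
  refine (Real.log_le_sub_one_of_pos (by positivity)).trans ?_
  rw [div_sub_one hy0.ne']
  have : 0 ≤ x - y := by linarith
  gcongr

/-- the difference of the integrands at two close parameters -/
theorem dif_diff (k : ℕ) {C : ℝ} {N : ℕ} (hC : 0 < C)
    (hb : ∀ u : ℝ, 0 ≤ u → ff u ≤ C * (1 + u) ^ N)
    (hL : ∀ u v : ℝ, 0 ≤ u → 0 ≤ v → |ff u - ff v| ≤ C * (1 + u + v) ^ N * |u - v|)
    (hnn : ∀ u, 0 ≤ ff u) {A U r t : ℝ} (hA : 1 ≤ A) (hU : 1 ≤ U) (hr : 0 ≤ r)
    (ht : t ∈ Icc U (2 * U)) {x y : Fin k → ℝ} (hx : ∀ j, (2 * A)⁻¹ ≤ x j ∧ x j ≤ 2 * A)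
    (hy : ∀ j, (2 * A)⁻¹ ≤ y j ∧ y j ≤ 2 * A) (hxy : ∀ j, |x j - y j| ≤ r) :
    |dif x t - dif y t| ≤ 2 * (k * ((C + 1) * (20 * A * U) ^ (N + 1)) ^ k * r) := by
  set M : ℝ := (C + 1) * (20 * A * U) ^ (N + 1) with hM
  have hA0 : 0 < A := by linarith
  have hU0 : 0 < U := by linarith
  have ht0 : 0 < t := hU0.trans_le ht.1
  have hAU : 1 ≤ A * U := by nlinarith
  have h20 : 1 ≤ 20 * A * U := by nlinarith
  have hM1 : 20 * A * U ≤ M := by
    have h1 : (20 * A * U) ^ 1 ≤ (20 * A * U) ^ (N + 1) :=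
      pow_le_pow_right₀ h20 (by omega)
    rw [pow_one] at h1
    have h2 : 0 ≤ (20 * A * U) ^ (N + 1) := by positivity
    rw [hM]; nlinarith
  have hM0 : 0 ≤ M := by linarith
  have hz : ∀ z : ℝ, (2 * A)⁻¹ ≤ z ∧ z ≤ 2 * A → 0 < z ∧ z * t ≤ 4 * A * U := by
    intro z hz
    refine ⟨(by positivity : (0 : ℝ) < (2 * A)⁻¹).trans_le hz.1, ?_⟩
    have h1 := ht.2
    have h2 := hz.2
    calc z * t ≤ (2 * A) * (2 * U) := by gcongr
      _ = _ := by ring
  have hf : ∀ z : ℝ, (2 * A)⁻¹ ≤ z ∧ z ≤ 2 * A → |ff (z * t)| ≤ M := by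
    intro z hz'
    obtain ⟨hz0, hzt⟩ := hz z hz'
    rw [abs_of_nonneg (hnn _)]
    refine (hb _ (by positivity)).trans ?_
    have h1 : (1 + z * t) ^ N ≤ (20 * A * U) ^ (N + 1) := by
      calc (1 + z * t) ^ N ≤ (20 * A * U) ^ N := by
            refine pow_le_pow_left₀ (by positivity) ?_ _
            nlinarith
        _ ≤ _ := pow_le_pow_right₀ h20 (by omega)
    rw [hM]
    gcongr
    linarith
  have hg : ∀ z : ℝ, (2 * A)⁻¹ ≤ z ∧ z ≤ 2 * A → |D0 (z * t)| ≤ M := by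
    intro z hz'
    obtain ⟨hz0, hzt⟩ := hz z hz'
    have hpi := Real.pi_gt_three
    have hpi4 := Real.pi_lt_four
    have h5 : 0 ≤ Real.eulerMascheroniConstant := by
      have := Real.one_half_lt_eulerMascheroniConstant
      linarith
    have h6 : Real.eulerMascheroniConstant ≤ 1 := by
      have := Real.eulerMascheroniConstant_lt_two_thirds
      linarith
    have h7 : |Real.log (z * t / (2 * Real.pi))| ≤ 16 * A * U := by
      refine log_abs_le (by positivity) ?_ ?_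
      · rw [div_le_iff₀ (by positivity)]
        nlinarith
      · rw [inv_div, div_le_iff₀ (by positivity)]
        have h8 : (2 * A)⁻¹ * U ≤ z * t := by
          have := hz'.1
          have := ht.1
          gcongr
        have h9 : (2 * A)⁻¹ * U * (16 * A * U) = 8 * U * U := by field_simp; ring
        have h10 : 8 * U * U ≤ 16 * A * U * (z * t) := by
          rw [← h9, mul_comm]
          gcongr
        nlinarith
    unfold D0
    refine (abs_add_le _ _).trans ?_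
    rw [abs_of_nonneg (by linarith : 0 ≤ 2 * Real.eulerMascheroniConstant)]
    nlinarith
  have hfd : ∀ j, |ff (x j * t) - ff (y j * t)| ≤ M * r := by
    intro j
    obtain ⟨hx0, hxt⟩ := hz _ (hx j)
    obtain ⟨hy0, hyt⟩ := hz _ (hy j)
    refine (hL _ _ (by positivity) (by positivity)).trans ?_
    have h1 : |x j * t - y j * t| ≤ r * (2 * U) := by
      rw [← sub_mul, abs_mul, abs_of_pos ht0]
      have := hxy j
      have := ht.2
      gcongr
    have h2 : (1 + x j * t + y j * t) ^ N ≤ (20 * A * U) ^ N := by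
      refine pow_le_pow_left₀ (by positivity) ?_ _
      nlinarith
    calc C * (1 + x j * t + y j * t) ^ N * |x j * t - y j * t|
        ≤ (C + 1) * (20 * A * U) ^ N * (r * (2 * U)) := by gcongr; linarith
      _ ≤ (C + 1) * (20 * A * U) ^ N * (r * (20 * A * U)) := by
          gcongr
          nlinarith
      _ = M * r := by rw [hM, pow_succ]; ring
  have hgd : ∀ j, |D0 (x j * t) - D0 (y j * t)| ≤ M * r := by
    intro j
    obtain ⟨hx0, hxt⟩ := hz _ (hx j)
    obtain ⟨hy0, hyt⟩ := hz _ (hy j)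
    have hpi := Real.pi_pos
    have e : D0 (x j * t) - D0 (y j * t) = Real.log (x j) - Real.log (y j) := by
      unfold D0
      rw [Real.log_div (by positivity) (by positivity), Real.log_div (by positivity) (by positivity),
        Real.log_mul hx0.ne' ht0.ne', Real.log_mul hy0.ne' ht0.ne']
      ring
    rw [e]
    refine (log_diff_le (by positivity) (hx j).1 (hy j).1).trans ?_
    rw [div_inv_eq_mul]
    have := hxy j
    calc |x j - y j| * (2 * A) ≤ r * (2 * A) := by gcongr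
      _ ≤ r * M := by gcongr; nlinarith
      _ = M * r := mul_comm _ _
  have p1 := prod_diff k M r hM0 hr (fun j => ff (x j * t)) (fun j => ff (y j * t))
    (fun j => hf _ (hx j)) (fun j => hf _ (hy j)) hfd
  have p2 := prod_diff k M r hM0 hr (fun j => D0 (x j * t)) (fun j => D0 (y j * t))
    (fun j => hg _ (hx j)) (fun j => hg _ (hy j)) hgd
  unfold dif
  have e : ∏ j, ff (x j * t) - ∏ j, D0 (x j * t) - (∏ j, ff (y j * t) - ∏ j, D0 (y j * t)) =
      (∏ j, ff (x j * t) - ∏ j, ff (y j * t)) - (∏ j, D0 (x j * t) - ∏ j, D0 (y j * t)) := by ring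
  rw [e]
  refine (abs_sub _ _).trans ?_
  linarith

theorem dif_cont {k : ℕ} (hff : Continuous ff) {x : Fin k → ℝ} (hx : ∀ j, 0 < x j) {a b : ℝ}
    (ha : 0 < a) : ContinuousOn (fun t => dif x t) (Icc a b) := by
  unfold dif
  refine ContinuousOn.sub (continuous_finsetProd _ fun j _ => by fun_prop).continuousOn ?_
  exact continuousOn_finsetProd _ fun j _ => D0_cont (hx j) ha

/-- the difference of the integrals at two close parameters -/
theorem JJ_diff (k : ℕ) {F : ℝ → ℂ} (hF : Measurable F) (hff : Continuous ff) {U D Q : ℝ}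
    (hU : 1 ≤ U) (hD : 0 ≤ D) (hQ : 0 ≤ Q)
    (hFQ : ∫⁻ t in Icc U (2 * U), ‖F t‖ₑ ^ 2 ≤ ENNReal.ofReal Q) {x y : Fin k → ℝ}
    (hx : ∀ j, 0 < x j) (hy : ∀ j, 0 < y j) (hxy : ∀ t ∈ Icc U (2 * U), |dif x t - dif y t| ≤ D)
    {a b : ℝ} (ha : U ≤ a) (hb : b ≤ 2 * U) : JJ F x a b - JJ F y a b ≤ D * (U + Q) := by
  have hU0 : 0 < U := by linarith
  have ha0 : 0 < a := hU0.trans_le ha
  have hsub : Icc a b ⊆ Icc U (2 * U) := Icc_subset_Icc ha hb
  have hF2 : ∫⁻ t in Icc a b, ‖F t‖ₑ ^ 2 ≠ ⊤ :=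
    ((lintegral_mono_set hsub).trans_lt (hFQ.trans_lt ENNReal.ofReal_lt_top)).ne
  have i1 := intg hF hF2 (dif_cont hff hx ha0 (b := b))
  have i2 := intg hF hF2 (dif_cont hff hy ha0 (b := b))
  have h1 : JJ F x a b - JJ F y a b ≤
      ‖∫ t in Icc a b, (F t * ((dif x t : ℝ) : ℂ) - F t * ((dif y t : ℝ) : ℂ))‖ := by
    rw [integral_sub i1 i2]
    exact norm_sub_norm_le _ _
  refine h1.trans ?_
  have h2 : ‖∫ t in Icc a b, (F t * ((dif x t : ℝ) : ℂ) - F t * ((dif y t : ℝ) : ℂ))‖ₑ ≤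
      ENNReal.ofReal (D * (U + Q)) := by
    refine (enorm_integral_le_lintegral_enorm _).trans ?_
    refine (lintegral_mono_set hsub).trans ?_
    have h3 : ∀ t ∈ Icc U (2 * U), ‖F t * ((dif x t : ℝ) : ℂ) - F t * ((dif y t : ℝ) : ℂ)‖ₑ ≤
        ENNReal.ofReal D * (1 + ‖F t‖ₑ ^ 2) := by
      intro t ht
      rw [← mul_sub, ← ofReal_sub, enorm_mul, mul_comm]
      have h4 : ‖((dif x t - dif y t : ℝ) : ℂ)‖ₑ ≤ ENNReal.ofReal D := by
        rw [← ofReal_norm, norm_real, Real.norm_eq_abs]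
        exact ENNReal.ofReal_le_ofReal (hxy t ht)
      have h5 : ‖F t‖ₑ ≤ 1 + ‖F t‖ₑ ^ 2 := by
        rcases le_total ‖F t‖ₑ 1 with h | h
        · exact h.trans le_self_add
        · refine le_trans ?_ le_add_self
          calc ‖F t‖ₑ = ‖F t‖ₑ * 1 := (mul_one _).symm
            _ ≤ ‖F t‖ₑ * ‖F t‖ₑ := by gcongr
            _ = _ := (sq _).symm
      exact mul_le_mul' h4 h5
    refine (setLIntegral_mono' measurableSet_Icc h3).trans ?_
    rw [lintegral_const_mul' _ _ ENNReal.ofReal_ne_top, lintegral_add_left measurable_const,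
      setLIntegral_const, Real.volume_Icc, one_mul, ENNReal.ofReal_mul hD,
      ENNReal.ofReal_add hU0.le hQ]
    have e : 2 * U - U = U := by ring
    rw [e]
    gcongr
  rw [← ofReal_norm] at h2
  exact (ENNReal.ofReal_le_ofReal_iff (by positivity)).1 h2

/-- LIP -/
theorem t_LIP (hC : S_CRU) : S_LIP := by
  intro k
  obtain ⟨C, N, hC0, hff, hb, hL⟩ := hC
  have hnn : ∀ u, 0 ≤ ff u := by
    intro u
    unfold Pool.Agent.Y969.GP.ff
    positivity
  have hK : 1 ≤ (N + 1) * k + 3 := by omega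
  refine ⟨(((N + 1) * k + 3 : ℕ) : ℝ), by exact_mod_cast hK,
    fun F A θ ρ hF hA hθ hθ1 hρ hρ1 => ?_⟩
  obtain ⟨C', hC'0, hFC⟩ := hF.2 1 one_pos
  have hA0 : 0 < A := by linarith
  set C2 : ℝ := 2 * (k * ((C + 1) * (20 * A) ^ (N + 1)) ^ k) * (1 + 4 * C') with hC2
  have hC20 : 0 ≤ C2 := by positivity
  have hlim : Tendsto (fun n : ℕ => (2 : ℝ) ^ n) atTop atTop :=
    tendsto_pow_atTop_atTop_of_one_lt (by norm_num)
  filter_upwards [hlim.eventually_ge_atTop (max (2 * A) (2 * C2))] with n hn x hx y hy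
  set U : ℝ := (2 : ℝ) ^ n with hU
  have hU2A : 2 * A ≤ U := (le_max_left _ _).trans hn
  have hUC : 2 * C2 ≤ U := (le_max_right _ _).trans hn
  have hU1 : 1 ≤ U := by linarith
  have hU0 : 0 < U := by linarith
  set r : ℝ := U ^ (-(((N + 1) * k + 3 : ℕ) : ℝ)) with hr
  have hr0 : 0 ≤ r := by positivity
  have hr' : r = (U ^ ((N + 1) * k + 3))⁻¹ := by rw [hr, Real.rpow_neg hU0.le, Real.rpow_natCast]
  have hrU : r ≤ U⁻¹ := by
    rw [hr']
    refine inv_anti₀ hU0 ?_
    calc U = U ^ 1 := (pow_one U).symm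
      _ ≤ _ := pow_le_pow_right₀ hU1 (by omega)
  have hrA : r ≤ (2 * A)⁻¹ := hrU.trans (inv_anti₀ (by positivity) hU2A)
  have hyx : ∀ j, |y j - x j| ≤ r := by
    intro j
    have h := (dist_pi_le_iff hr0).1 (Metric.mem_closedBall.1 hy) j
    rwa [Real.dist_eq] at h
  have hAi : A⁻¹ = (2 * A)⁻¹ + (2 * A)⁻¹ := by field_simp; norm_num
  have hAi1 : (2 * A)⁻¹ ≤ A := by
    have h1 : (2 * A)⁻¹ ≤ 1 := inv_le_one_of_one_le₀ (by linarith)
    linarith
  have hAi0 : 0 < (2 * A)⁻¹ := by positivity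
  have hx2 : ∀ j, (2 * A)⁻¹ ≤ x j ∧ x j ≤ 2 * A := fun j =>
    ⟨by linarith [(hx.1 j).1], by linarith [(hx.1 j).2]⟩
  have hy2 : ∀ j, (2 * A)⁻¹ ≤ y j ∧ y j ≤ 2 * A := by
    intro j
    have h := abs_le.1 (hyx j)
    exact ⟨by linarith [(hx.1 j).1, h.1], by linarith [(hx.1 j).2, h.2]⟩
  -- the difference of the integrals
  have key : ∀ G : ℝ → ℂ, Measurable G → (∀ t, ‖G t‖ₑ = ‖F t‖ₑ) → ∀ a b : ℝ, U ≤ a → b ≤ 2 * U →
      JJ G x a b - JJ G y a b ≤ 1 / 2 * U ^ (1 - ρ) := by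
    intro G hG hGF a b ha hb'
    have hFQ : ∫⁻ t in Icc U (2 * U), ‖G t‖ₑ ^ 2 ≤ ENNReal.ofReal (C' * (2 * U) ^ 2) := by
      simp only [hGF]
      have h1 := hFC (2 * U) (by linarith)
      have h2 : Icc U (2 * U) ⊆ Ioc 0 (2 * U) := fun t ht => ⟨hU0.trans_le ht.1, ht.2⟩
      refine (lintegral_mono_set h2).trans (h1.trans (le_of_eq ?_))
      congr 2
      rw [show (1 : ℝ) + 1 = ((2 : ℕ) : ℝ) by norm_num, Real.rpow_natCast]
    have h3 := JJ_diff k hG hff hU1
      (D := 2 * (k * ((C + 1) * (20 * A * U) ^ (N + 1)) ^ k * r)) (by positivity)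
      (by positivity) hFQ (x := x) (y := y) (fun j => hAi0.trans_le (hx2 j).1)
      (fun j => hAi0.trans_le (hy2 j).1)
      (fun t ht => dif_diff k hC0 hb hL hnn hA hU1 hr0 ht hx2 hy2
        (fun j => by rw [abs_sub_comm]; exact hyx j)) ha hb'
    refine h3.trans ?_
    have h4 : U + C' * (2 * U) ^ 2 ≤ (1 + 4 * C') * U ^ 2 := by nlinarith
    have h5 : 2 * (k * ((C + 1) * (20 * A * U) ^ (N + 1)) ^ k * r) * (U + C' * (2 * U) ^ 2) ≤
        C2 * U⁻¹ := by
      calc 2 * (k * ((C + 1) * (20 * A * U) ^ (N + 1)) ^ k * r) * (U + C' * (2 * U) ^ 2)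
          ≤ 2 * (k * ((C + 1) * (20 * A * U) ^ (N + 1)) ^ k * r) * ((1 + 4 * C') * U ^ 2) := by
            gcongr
        _ = C2 * (U ^ ((N + 1) * k + 2) * r) := by
            rw [hC2, mul_pow (20 * A) U (N + 1), ← mul_assoc (C + 1),
              mul_pow ((C + 1) * (20 * A) ^ (N + 1)), ← pow_mul U, pow_add U]
            ring
        _ = C2 * U⁻¹ := by
            rw [hr']
            congr 1
            rw [show (N + 1) * k + 3 = ((N + 1) * k + 2) + 1 by ring, pow_succ U ((N + 1) * k + 2)]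
            field_simp
    refine h5.trans ?_
    have h6 : 1 ≤ U ^ (1 - ρ) := Real.one_le_rpow hU1 (by linarith)
    have h7 : C2 * U⁻¹ ≤ 1 / 2 := by
      rw [← div_eq_mul_inv, div_le_iff₀ hU0]
      linarith
    linarith
  obtain ⟨hxA, i, hi, hor⟩ := hx
  have hN0 : (0 : ℝ) < NN θ n := by
    have : 0 < NN θ n := by omega
    exact_mod_cast this
  have hg1 : ∀ j : ℕ, U ≤ gp θ n j := by
    intro j
    unfold gp
    have : 0 ≤ (j : ℝ) / NN θ n := by positivity
    nlinarith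
  have hg2 : ∀ j : ℕ, j ≤ NN θ n → gp θ n j ≤ 2 * U := by
    intro j hj
    unfold gp
    have : (j : ℝ) / NN θ n ≤ 1 := by
      rw [div_le_one hN0]
      exact_mod_cast hj
    nlinarith
  refine ⟨hy2, i, hi, ?_⟩
  rcases hor with h | h
  · left
    have h1 := key F hF.1 (fun t => rfl) (2 ^ n) (gp θ n i) le_rfl (hg2 i (by omega))
    linarith
  · right
    have h1 := key (fun t => ((‖F t‖ : ℝ) : ℂ)) (measurable_ofReal.comp hF.1.norm) (fun t => by
      rw [← ofReal_norm, norm_real, norm_norm, ofReal_norm]) (gp θ n i) (gp θ n (i + 1)) (hg1 i)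
      (hg2 (i + 1) (by omega))
    linarith

end Pool.Agent.J4H64.GD
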