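import Pool.Agent.N879.GD.Stm

/-!
# Project GD (helper1): integrals over boxes, several dilations (helper64)
-/

set_option autoImplicit false

namespace Pool.Agent.J4H64.GD

open Complex Filter Topology MeasureTheory Set
open scoped ENNReal
open Pool.Agent.N879.GD
open Pool.Agent.Y969.GP (ff)

/-- splitting off the first variable of a box integral -/
theorem box_split {k : ℕ} (a b : ℝ) (f : (Fin (k + 1) → ℝ) → ℝ≥0∞) (hf : Measurable f) :
    ∫⁻ l in Icc (fun _ : Fin (k + 1) => a) (fun _ => b), f l =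
      ∫⁻ x in Icc a b, ∫⁻ l in Icc (fun _ : Fin k => a) (fun _ => b), f (Fin.cons x l) := by
  set e : ℝ × (Fin k → ℝ) ≃ᵐ (Fin (k + 1) → ℝ) :=
    (MeasurableEquiv.piFinSuccAbove (fun _ => ℝ) 0).symm with he
  have hem : MeasurePreserving e :=
    (volume_preserving_piFinSuccAbove (fun _ : Fin (k + 1) => ℝ) 0).symm _
  have hep : ∀ p : ℝ × (Fin k → ℝ), e p = Fin.cons p.1 p.2 := by
    intro p
    rw [he, MeasurableEquiv.piFinSuccAbove_symm_apply]
    simp [Fin.insertNthEquiv]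
  have hpre : e ⁻¹' Icc (fun _ : Fin (k + 1) => a) (fun _ => b) =
      Icc a b ×ˢ Icc (fun _ : Fin k => a) (fun _ => b) := by
    ext p
    simp only [mem_preimage, hep, mem_Icc, mem_prod, Pi.le_def, Fin.forall_fin_succ, Fin.cons_zero,
      Fin.cons_succ]
    tauto
  rw [← hem.setLIntegral_comp_preimage measurableSet_Icc hf, hpre, Measure.volume_eq_prod,
    setLIntegral_prod]
  · simp only [hep]
  · exact (hf.comp e.measurable).aemeasurable

/-- Tonelli for a product of functions of one variable over a box -/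
theorem box_prod (a b : ℝ) (g : ℝ → ℝ≥0∞) (hg : Measurable g) (k : ℕ) :
    ∫⁻ l in Icc (fun _ : Fin k => a) (fun _ => b), ∏ j, g (l j) = (∫⁻ x in Icc a b, g x) ^ k := by
  induction k with
  | zero =>
      have h : (Icc (fun _ : Fin 0 => a) (fun _ => b)) = Set.univ := by
        ext l
        simp only [mem_Icc, Set.mem_univ, iff_true]
        exact ⟨fun i => i.elim0, fun i => i.elim0⟩
      rw [h, Measure.restrict_univ]
      simp [MeasureTheory.volume_pi]
  | succ k ih =>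
      have hm : ∀ n : ℕ, Measurable fun l : Fin n → ℝ => ∏ j, g (l j) := fun n =>
        Finset.measurable_fun_prod _ fun j _ => hg.comp (measurable_pi_apply j)
      rw [box_split a b _ (hm _)]
      simp only [Fin.prod_univ_succ, Fin.cons_zero, Fin.cons_succ]
      have h1 : ∀ x : ℝ, ∫⁻ l in Icc (fun _ : Fin k => a) (fun _ => b), g x * ∏ j, g (l j) =
          g x * (∫⁻ x in Icc a b, g x) ^ k := by
        intro x
        rw [lintegral_const_mul _ (hm _), ih]
      simp only [h1]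
      rw [lintegral_mul_const _ hg, pow_succ, mul_comm]

theorem enorm_add_sq (a b : ℂ) : ‖a + b‖ₑ ^ 2 ≤ 2 * ‖a‖ₑ ^ 2 + 2 * ‖b‖ₑ ^ 2 := by
  have h : ∀ z : ℂ, ‖z‖ₑ ^ 2 = ENNReal.ofReal (‖z‖ ^ 2) := by
    intro z
    rw [← ofReal_norm, ENNReal.ofReal_pow (norm_nonneg z)]
  have h2 : (2 : ℝ≥0∞) = ENNReal.ofReal 2 := by simp
  rw [h, h, h, h2, ← ENNReal.ofReal_mul (by norm_num), ← ENNReal.ofReal_mul (by norm_num),
    ← ENNReal.ofReal_add (by positivity) (by positivity)]
  refine ENNReal.ofReal_le_ofReal ?_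
  have h3 := norm_add_le a b
  have h4 : ‖a + b‖ ^ 2 ≤ (‖a‖ + ‖b‖) ^ 2 := by gcongr
  nlinarith [sq_nonneg (‖a‖ - ‖b‖)]

/-- `F φ` is integrable for `F` square integrable on a compact interval, `φ` continuous -/
theorem intg {a b : ℝ} {F : ℝ → ℂ} (hF : Measurable F) (hF2 : ∫⁻ t in Icc a b, ‖F t‖ₑ ^ 2 ≠ ⊤)
    {φ : ℝ → ℝ} (hφ : ContinuousOn φ (Icc a b)) :
    IntegrableOn (fun t => F t * ((φ t : ℝ) : ℂ)) (Icc a b) := by
  have h1 : MemLp F 2 (volume.restrict (Icc a b)) := by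
    refine ⟨hF.aestronglyMeasurable, ?_⟩
    rw [eLpNorm_lt_top_iff_lintegral_rpow_enorm_lt_top (by norm_num) (by norm_num)]
    simpa using hF2.lt_top
  have h2 : IntegrableOn F (Icc a b) := h1.integrable (by norm_num)
  exact h2.mul_continuousOn (continuous_ofReal.comp_continuousOn hφ) isCompact_Icc

theorem D0_cont {l a b : ℝ} (hl : 0 < l) (ha : 0 < a) :
    ContinuousOn (fun t : ℝ => D0 (l * t)) (Icc a b) := by
  unfold D0
  refine ContinuousOn.add (ContinuousOn.log (by fun_prop) ?_) continuousOn_const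
  intro t ht
  have : 0 < t := ha.trans_le ht.1
  positivity

theorem D0_meas : Measurable D0 := by
  unfold D0
  exact (Real.measurable_log.comp (measurable_id.div_const _)).add_const _

theorem D0_bound (A η : ℝ) (hA : 1 ≤ A) (hη : 0 < η) : ∃ C : ℝ, 0 < C ∧ ∀ T : ℝ,
    2 * Real.pi * A ≤ T → ∀ t ∈ Icc T (2 * T), ∀ l ∈ Icc A⁻¹ A, |D0 (l * t)| ≤ C * T ^ η := by
  refine ⟨(2 * A) ^ η / η + 2, by positivity, fun T hT t ht l hl => ?_⟩
  have hpi := Real.pi_gt_three
  have hA0 : 0 < A := by linarith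
  have hT1 : 1 ≤ T := by nlinarith
  have hT0 : 0 < T := by linarith
  have ht0 : 0 < t := hT0.trans_le ht.1
  have hl0 : 0 < l := (inv_pos.2 hA0).trans_le hl.1
  have hlow : 2 * Real.pi ≤ l * t := by
    have h1 : A⁻¹ * (2 * Real.pi * A) ≤ l * t := by
      have := hl.1
      have h3 := hT.trans ht.1
      gcongr
    have h2 : A⁻¹ * (2 * Real.pi * A) = 2 * Real.pi := by field_simp
    linarith
  have hup : l * t / (2 * Real.pi) ≤ 2 * A * T := by
    rw [div_le_iff₀ (by positivity)]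
    have h1 : l * t ≤ A * (2 * T) := by
      have := hl.2
      have := ht.2
      gcongr
    have h2 : 0 ≤ A * T := by positivity
    nlinarith
  have h1 : 1 ≤ l * t / (2 * Real.pi) := by rw [le_div_iff₀ (by positivity)]; linarith
  have h0 : 0 ≤ Real.log (l * t / (2 * Real.pi)) := Real.log_nonneg h1
  have h2 : Real.log (l * t / (2 * Real.pi)) ≤ (2 * A) ^ η / η * T ^ η := by
    refine (Real.log_le_rpow_div (by linarith) hη).trans ?_
    have h3 : (l * t / (2 * Real.pi)) ^ η ≤ (2 * A * T) ^ η :=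
      Real.rpow_le_rpow (by linarith) hup hη.le
    rw [Real.mul_rpow (by positivity) hT0.le] at h3
    calc (l * t / (2 * Real.pi)) ^ η / η ≤ ((2 * A) ^ η * T ^ η) / η := by gcongr
      _ = _ := by ring
  have h4 : 1 ≤ T ^ η := Real.one_le_rpow hT1 hη.le
  have h5 : 0 ≤ Real.eulerMascheroniConstant := by
    have := Real.one_half_lt_eulerMascheroniConstant
    linarith
  have h6 : Real.eulerMascheroniConstant ≤ 1 := by
    have := Real.eulerMascheroniConstant_lt_two_thirds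
    linarith
  unfold D0
  rw [abs_of_nonneg (by linarith)]
  nlinarith

/-- second moment of `ff` over the dilations -/
theorem ff_mom (hM : S_M4) (hC : Continuous ff) (A ε : ℝ) (hA : 1 ≤ A) (hε : 0 < ε) :
    ∃ C : ℝ, 0 < C ∧ ∀ T : ℝ, 1 ≤ T → ∀ t ∈ Icc T (2 * T),
      ∫⁻ l in Icc A⁻¹ A, ‖ff (l * t)‖ₑ ^ 2 ≤ ENNReal.ofReal (C * T ^ ε) := by
  obtain ⟨C, hC0, h⟩ := hM ε hε
  refine ⟨C * A ^ (1 + ε) * 2 ^ ε, by positivity, fun T hT t ht => ?_⟩
  have hA0 : 0 < A := by linarith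
  have hT0 : 0 < T := by linarith
  have ht0 : 0 < t := hT0.trans_le ht.1
  have hAA : A⁻¹ ≤ A := (inv_le_one_of_one_le₀ hA).trans hA
  have h1 : ∀ l : ℝ, ‖ff (l * t)‖ₑ ^ 2 = ENNReal.ofReal (ff (l * t) ^ 2) := by
    intro l
    rw [← ofReal_norm, ← ENNReal.ofReal_pow (norm_nonneg _), Real.norm_eq_abs, sq_abs]
  have hcont : Continuous fun l : ℝ => ff (l * t) ^ 2 := by fun_prop
  simp only [h1]
  rw [← ofReal_integral_eq_lintegral_ofReal (hcont.integrableOn_Icc)
    (Filter.Eventually.of_forall fun l => sq_nonneg _)]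
  refine ENNReal.ofReal_le_ofReal ?_
  rw [integral_Icc_eq_integral_Ioc, ← intervalIntegral.integral_of_le hAA]
  have h2 : ∫ l in A⁻¹..A, ff (l * t) ^ 2 = t⁻¹ * ∫ u in (A⁻¹ * t)..(A * t), ff u ^ 2 := by
    rw [intervalIntegral.integral_comp_mul_right (fun u => ff u ^ 2) ht0.ne', smul_eq_mul]
  have hff : Continuous fun u : ℝ => ff u ^ 2 := by fun_prop
  have h3 : ∫ u in (A⁻¹ * t)..(A * t), ff u ^ 2 ≤ ∫ u in (0 : ℝ)..(A * t), ff u ^ 2 := by
    refine intervalIntegral.integral_mono_interval (by positivity) (by gcongr) le_rfl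
      (Filter.Eventually.of_forall fun u => sq_nonneg _) (hff.intervalIntegrable _ _)
  have h4 := h (A * t) (by nlinarith [ht.1])
  rw [h2]
  calc t⁻¹ * ∫ u in (A⁻¹ * t)..(A * t), ff u ^ 2 ≤ t⁻¹ * (C * (A * t) ^ (1 + ε)) := by
        have := h3.trans h4
        gcongr
    _ = C * A ^ (1 + ε) * t ^ ε := by
        rw [Real.mul_rpow hA0.le ht0.le, Real.rpow_add ht0, Real.rpow_one]
        field_simp
    _ ≤ C * A ^ (1 + ε) * (2 * T) ^ ε := by
        have := ht.2
        gcongr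
    _ = C * A ^ (1 + ε) * 2 ^ ε * T ^ ε := by
        rw [Real.mul_rpow (by norm_num) hT0.le]; ring

end Pool.Agent.J4H64.GD
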